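import Pool.Agent.Helper81.SB.Basic

set_option autoImplicit false

open Pool.Agent.Helper81.SB Set Cardinal Filter

namespace Pool.Agent.Helper56.SB

/-- diagonalisation -/
theorem diag (S : Set (ℕ → ℕ)) (hS : S.Countable) (f : ℕ → ℕ) :
    ∃ G : ℕ → ℕ, Monotone G ∧ (∀ n, f n ≤ G n) ∧ ∀ s ∈ S, ∀ᶠ n in atTop, s n ≤ G n := by
  have hc : (insert f S).Countable := hS.insert f
  obtain ⟨e, he⟩ := hc.exists_eq_range (insert_nonempty f S)
  refine ⟨fun n => ∑ k ∈ Finset.range (n + 1), ∑ j ∈ Finset.range (n + 1), (e k j + f j),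
    ?_, ?_, ?_⟩
  · intro n m hnm
    have hsub : Finset.range (n + 1) ⊆ Finset.range (m + 1) :=
      Finset.range_subset_range.mpr (by omega)
    calc ∑ k ∈ Finset.range (n + 1), ∑ j ∈ Finset.range (n + 1), (e k j + f j)
        ≤ ∑ k ∈ Finset.range (n + 1), ∑ j ∈ Finset.range (m + 1), (e k j + f j) :=
          Finset.sum_le_sum fun k _ => Finset.sum_le_sum_of_subset hsub
      _ ≤ _ := Finset.sum_le_sum_of_subset hsub
  · intro n
    calc f n ≤ e 0 n + f n := Nat.le_add_left _ _
      _ ≤ ∑ j ∈ Finset.range (n + 1), (e 0 j + f j) :=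
          Finset.single_le_sum (f := fun j => e 0 j + f j) (fun _ _ => Nat.zero_le _)
            (Finset.mem_range.mpr (by omega))
      _ ≤ _ := Finset.single_le_sum
            (f := fun k => ∑ j ∈ Finset.range (n + 1), (e k j + f j)) (fun _ _ => Nat.zero_le _)
            (Finset.mem_range.mpr (by omega))
  · intro s hs
    have hs2 : s ∈ range e := by rw [← he]; exact mem_insert_of_mem _ hs
    obtain ⟨k, rfl⟩ := hs2
    filter_upwards [eventually_ge_atTop k] with n hn
    calc e k n ≤ e k n + f n := Nat.le_add_right _ _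
      _ ≤ ∑ j ∈ Finset.range (n + 1), (e k j + f j) :=
          Finset.single_le_sum (f := fun j => e k j + f j) (fun _ _ => Nat.zero_le _)
            (Finset.mem_range.mpr (by omega))
      _ ≤ _ := Finset.single_le_sum
            (f := fun k => ∑ j ∈ Finset.range (n + 1), (e k j + f j)) (fun _ _ => Nat.zero_le _)
            (Finset.mem_range.mpr (by omega))

theorem goal_SCALE : Goal_SCALE := by
  intro D hD hU
  have hne : D.Nonempty := by
    obtain ⟨g, hg, _⟩ := hU (fun _ => 0)
    exact ⟨g, hg⟩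
  obtain ⟨x, hx⟩ := exists_surj D hD hne
  have hcount : ∀ (α : W) (IH : ∀ β : W, β < α → (ℕ → ℕ)),
      (range fun β : Iio α => IH β.1 β.2).Countable := by
    intro α IH
    have : Countable (Iio α) := (W_Iio α).to_subtype
    exact countable_range _
  let step : ∀ α : W, (∀ β : W, β < α → (ℕ → ℕ)) → (ℕ → ℕ) := fun α IH =>
    Classical.choose (diag _ (hcount α IH) (x α))
  have hstep : ∀ (α : W) (IH : ∀ β : W, β < α → (ℕ → ℕ)), Monotone (step α IH) ∧
      (∀ n, x α n ≤ step α IH n) ∧
      ∀ s ∈ (range fun β : Iio α => IH β.1 β.2), ∀ᶠ n in atTop, s n ≤ step α IH n :=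
    fun α IH => Classical.choose_spec (diag _ (hcount α IH) (x α))
  let g : W → ℕ → ℕ := (wellFounded_lt (α := W)).fix step
  have hg : ∀ α, g α = step α (fun β _ => g β) := fun α => WellFounded.fix_eq _ _ _
  have hx2 : ∀ α n, x α n ≤ g α n := by
    intro α n
    rw [hg α]
    exact (hstep α (fun β _ => g β)).2.1 n
  have hch : ∀ α β, α < β → ∀ᶠ n in atTop, g α n ≤ g β n := by
    intro α β hαβ
    rw [hg β]
    exact (hstep β (fun γ _ => g γ)).2.2 (g α) ⟨⟨α, hαβ⟩, rfl⟩
  refine ⟨g, ?_, hch, ?_⟩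
  · intro α
    rw [hg α]
    exact (hstep α (fun β _ => g β)).1
  · intro Γ hΓ h
    by_contra hcon
    push Not at hcon
    obtain ⟨f, hf, hfr⟩ := hU h
    rw [← hx] at hf
    obtain ⟨β, rfl⟩ := hf
    obtain ⟨α, hα, hβα⟩ := exists_gt_of_not_countable hΓ β
    apply hfr
    filter_upwards [hch β α hβα] with n hn
    have h1 := hx2 β n
    have h2 := hcon α hα n
    simp only [not_lt]
    omega

end Pool.Agent.Helper56.SB
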